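import Pool.Agent.RSec.EllTwo

/-!
R-sectoriality and Hilbert spaces: infinite `ℓ²`-sums of copies of a Banach space.

Let `X` be a complex Banach space with property (H) (every negative generator of a bounded analytic
semigroup on `X` is R-sectorial). Then every complemented subspace of `X` which is isomorphic to
`ℓ²(Y)` for some Banach space `Y` is isomorphic to a Hilbert space. In particular a Banach space
isomorphic to `ℓ²(Y)`, for some Banach space `Y`, has property (H) only if it is isomorphic to a
Hilbert space. No basis, no approximation property and no separability is assumed.
-/

set_option autoImplicit false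

namespace Pool.Agent.Results.MP_2e5724_an.EllTwoSums

open Pool.Agent.RSec

universe u

theorem result :
    ∀ (X Y : Type u) [NormedAddCommGroup X] [NormedSpace ℂ X] [CompleteSpace X]
      [NormedAddCommGroup Y] [NormedSpace ℂ Y] [CompleteSpace Y],
      Complemented X Y → PropertyH X → IsoHilbert (EllTwo Y) := by
  intro X Y _ _ _ _ _ _ h hH
  exact isoHilbert_EllTwo X Y h hH

end Pool.Agent.Results.MP_2e5724_an.EllTwoSums
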