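import Pool.Agent.FSG.Final

/-!
R-sectoriality and Hilbert spaces: the question for separable Banach spaces has a negative answer.

There is a separable complex Banach space which has property (H) (every negative generator of a
bounded analytic semigroup on it is R-sectorial) and which is not isomorphic to a Hilbert space.

The space is a closed subspace of the dual of a space of Gowers-Maurey type, spanned by vectors of
Davie type (so it fails the approximation property). On it there is a linear functional on the
bounded operators (the scalar part of an operator) which is continuous for strong convergence of
bounded sequences; operators with nonzero scalar part have compact kernel balls and closed range,
so the resolvents of the negative generator of an analytic semigroup are onto and the generator is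
bounded; a second application of the same facts at the origin splits the space and shows that the
generator is R-sectorial.
-/

set_option autoImplicit false

namespace Pool.Agent.Results.MP_2e5724_an.SeparableDisproof

open Pool.Agent.RSec

theorem result :
    ∃ (X : Type) (_ : NormedAddCommGroup X) (_ : NormedSpace ℂ X) (_ : CompleteSpace X)
      (_ : TopologicalSpace.SeparableSpace X), PropertyH X ∧ ¬ IsoHilbert X :=
  Pool.Agent.FSG.exists_separable_counterexample

end Pool.Agent.Results.MP_2e5724_an.SeparableDisproof
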